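import Pool.Graph.R_seed8.TH632.Defs

/-!
# Pseudomanifolds
-/

open Set

namespace Pool.Agent.KS6_94.UB

universe u

/-- The dual graph: the `m`-simplices of `K`, joined if they have a common facet. -/
def dualGraph {V : Type u} (m : ℕ) (K : PreAbstractSimplicialComplex V) :
    SimpleGraph {σ : Finset V // σ ∈ K.faces ∧ σ.card = m + 1} := by
  classical
  exact
  { Adj := fun σ τ => σ ≠ τ ∧ (σ.1 ∩ τ.1).card = m
    symm := ⟨fun σ τ h => ⟨h.1.symm, by rw [Finset.inter_comm]; exact h.2⟩⟩
    loopless := ⟨fun σ h => h.1 rfl⟩ }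

/-- `K` is a (locally finite, strongly connected) `m`-pseudomanifold without boundary: every simplex
is contained in an `m`-simplex, every `(m - 1)`-simplex is contained in exactly two `m`-simplices,
and any two `m`-simplices are joined by a chain of `m`-simplices with common facets. -/
def IsPseudomanifold {V : Type u} (m : ℕ) (K : PreAbstractSimplicialComplex V) : Prop :=
  (∀ v, {s ∈ K.faces | v ∈ s}.Finite) ∧
  (∀ s ∈ K.faces, ∃ σ ∈ K.faces, s ⊆ σ ∧ σ.card = m + 1) ∧
  (∀ τ ∈ K.faces, τ.card = m → {σ ∈ K.faces | τ ⊆ σ ∧ σ.card = m + 1}.ncard = 2) ∧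
  (dualGraph m K).Connected

end Pool.Agent.KS6_94.UB
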