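import Pool.Graph.R_seed8.TH632.Complete
import Pool.Graph.R_seed8.TH632.Build
import Pool.Agent.KS6_94.UB.Defs

/-!
# Branched covers of `ℝ^m` by open orientable pseudomanifolds, with a fixed branch set

The construction of the library (`Pool.Agent.TH632`) is applied to pseudomanifolds.
-/

open Set Topology

namespace Pool.Agent.KS6_94.UB

open Pool.Agent.TH632

universe u

open scoped Classical in
section

variable {V : Type u}

theorem dualGraph_eq {m : ℕ} (K : PreAbstractSimplicialComplex V) :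
    dualGraph m K = TH641.J10.dualGraph m K := by
  ext σ τ
  simp only [dualGraph, TH641.J10.dualGraph]

/-- Connected PL manifolds are pseudomanifolds. -/
theorem pseudomanifold_of_manifold {m : ℕ} (hm : 2 ≤ m) {K : PreAbstractSimplicialComplex V}
    (hK : IsPLManifold m K) [ConnectedSpace (realization K)] : IsPseudomanifold m K := by
  refine ⟨hK.1, fun s hs => TH641.J10.exists_cell' hK hs, ?_, ?_⟩
  · intro τ hτ hc
    obtain ⟨a, b, hab, ha, hb, hfa, hfb, hall⟩ := TH641.J10.exists_two hK hτ hc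
    have h1 : {σ ∈ K.faces | τ ⊆ σ ∧ σ.card = m + 1} = {insert a τ, insert b τ} := by
      ext σ
      simp only [mem_ofPred_eq, mem_insert_iff, mem_singleton_iff]
      constructor
      · rintro ⟨h1, h2, h3⟩
        have h4 : (σ \ τ).card = 1 := by
          rw [Finset.card_sdiff_of_subset h2]; omega
        obtain ⟨c, hc'⟩ := Finset.card_eq_one.mp h4
        have hcm : c ∈ σ \ τ := by rw [hc']; exact Finset.mem_singleton_self c
        rw [Finset.mem_sdiff] at hcm
        have h5 : σ = insert c τ := by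
          symm
          apply Finset.eq_of_subset_of_card_le
          · exact Finset.insert_subset hcm.1 h2
          · rw [Finset.card_insert_of_notMem hcm.2]; omega
        rcases hall c hcm.2 (h5 ▸ h1) with rfl | rfl
        · exact Or.inl h5
        · exact Or.inr h5
      · rintro (rfl | rfl)
        · exact ⟨hfa, Finset.subset_insert _ _, by rw [Finset.card_insert_of_notMem ha, hc]⟩
        · exact ⟨hfb, Finset.subset_insert _ _, by rw [Finset.card_insert_of_notMem hb, hc]⟩
    rw [h1]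
    refine ncard_pair ?_
    intro h
    have h2 : a ∈ insert b τ := h ▸ Finset.mem_insert_self a τ
    rcases Finset.mem_insert.mp h2 with h3 | h3
    · exact hab h3
    · exact ha h3
  · rw [dualGraph_eq]
    exact TH641.J10.dualGraph_connected (m := m) (by omega) hK

/-- The two `m`-simplices containing a facet. -/
theorem exists_two {m : ℕ} {K : PreAbstractSimplicialComplex V}
    (hK : IsPseudomanifold m K) {τ : Finset V} (hτ : τ ∈ K.faces) (hc : τ.card = m) :
    ∃ a b : V, a ≠ b ∧ a ∉ τ ∧ b ∉ τ ∧ insert a τ ∈ K.faces ∧ insert b τ ∈ K.faces ∧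
      ∀ c, c ∉ τ → insert c τ ∈ K.faces → c = a ∨ c = b := by
  obtain ⟨σ, σ', hne, hσσ⟩ := ncard_eq_two.1 (hK.2.2.1 τ hτ hc)
  have key : ∀ ρ ∈ ({σ ∈ K.faces | τ ⊆ σ ∧ σ.card = m + 1} : Set (Finset V)),
      ∃ c, c ∉ τ ∧ ρ = insert c τ := by
    rintro ρ ⟨h1, h2, h3⟩
    have h4 : (ρ \ τ).card = 1 := by
      rw [Finset.card_sdiff_of_subset h2]; omega
    obtain ⟨c, hc'⟩ := Finset.card_eq_one.mp h4
    have hcm : c ∈ ρ \ τ := by rw [hc']; exact Finset.mem_singleton_self c
    rw [Finset.mem_sdiff] at hcm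
    refine ⟨c, hcm.2, ?_⟩
    symm
    apply Finset.eq_of_subset_of_card_le
    · exact Finset.insert_subset hcm.1 h2
    · rw [Finset.card_insert_of_notMem hcm.2]; omega
  have hσm : σ ∈ ({σ ∈ K.faces | τ ⊆ σ ∧ σ.card = m + 1} : Set (Finset V)) := by
    rw [hσσ]; exact Or.inl rfl
  have hσm' : σ' ∈ ({σ ∈ K.faces | τ ⊆ σ ∧ σ.card = m + 1} : Set (Finset V)) := by
    rw [hσσ]; exact Or.inr rfl
  obtain ⟨a, ha, rfl⟩ := key σ hσm
  obtain ⟨b, hb, rfl⟩ := key σ' hσm'
  refine ⟨a, b, fun h => hne (by rw [h]), ha, hb, hσm.1, hσm'.1, ?_⟩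
  intro c hcτ hcf
  have h1 : insert c τ ∈ ({σ ∈ K.faces | τ ⊆ σ ∧ σ.card = m + 1} : Set (Finset V)) :=
    ⟨hcf, Finset.subset_insert _ _, by rw [Finset.card_insert_of_notMem hcτ, hc]⟩
  rw [hσσ] at h1
  rcases h1 with h1 | h1
  · left
    have h2 : c ∈ insert a τ := h1 ▸ Finset.mem_insert_self c τ
    exact (Finset.mem_insert.mp h2).resolve_right hcτ
  · right
    have h2 : c ∈ insert b τ := h1 ▸ Finset.mem_insert_self c τ
    exact (Finset.mem_insert.mp h2).resolve_right hcτ

theorem neighbor_finite {m : ℕ} (hm : 2 ≤ m) {K : PreAbstractSimplicialComplex V}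
    (hK : IsPseudomanifold m K) (x : {σ : Finset V // σ ∈ K.faces ∧ σ.card = m + 1}) :
    ((TH641.J10.dualGraph m K).neighborSet x).Finite := by
  have h1 : (⋃ v ∈ (x.1 : Set V), {s ∈ K.faces | v ∈ s}).Finite :=
    Set.Finite.biUnion x.1.finite_toSet fun v _ => hK.1 v
  apply (h1.preimage (f := fun σ : {σ : Finset V // σ ∈ K.faces ∧ σ.card = m + 1} => σ.1)
    (Subtype.val_injective.injOn)).subset
  intro y hy
  have hy' : x ≠ y ∧ (x.1 ∩ y.1).card = m := hy
  obtain ⟨v, hv⟩ := Finset.card_pos.mp (by rw [hy'.2]; omega : 0 < (x.1 ∩ y.1).card)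
  rw [Finset.mem_inter] at hv
  exact Set.mem_biUnion (x := v) hv.1 ⟨y.2.1, hv.2⟩

theorem realization_eq {m : ℕ} {K : PreAbstractSimplicialComplex V}
    (hK : IsPseudomanifold m K) :
    realization K = ⋃ σ ∈ {σ | σ ∈ K.faces ∧ σ.card = m + 1}, simplex σ := by
  apply Set.Subset.antisymm
  · intro x hx
    obtain ⟨s, hs, hxs⟩ := Set.mem_iUnion₂.mp hx
    obtain ⟨σ, h1, h2, h3⟩ := hK.2.1 s hs
    exact Set.mem_biUnion (x := σ) ⟨h1, h3⟩ (simplex_mono h2 hxs)
  · intro x hx
    obtain ⟨s, hs, hxs⟩ := Set.mem_iUnion₂.mp hx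
    exact Set.mem_biUnion (x := s) hs.1 hxs

theorem infinite_cells {m : ℕ} {K : PreAbstractSimplicialComplex V}
    (hK : IsPseudomanifold m K) [NoncompactSpace (realization K)] :
    {σ | σ ∈ K.faces ∧ σ.card = m + 1}.Infinite := by
  intro hfin
  have h1 : IsCompact (realization K) := by
    rw [realization_eq hK]
    exact hfin.isCompact_biUnion fun σ _ => isCompact_simplex σ
  have h2 : CompactSpace (realization K) := isCompact_iff_compactSpace.mp h1
  exact (not_compactSpace_iff.mpr inferInstance) h2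

theorem connected' {m : ℕ} {K : PreAbstractSimplicialComplex V}
    (hK : IsPseudomanifold m K) : (TH641.J10.dualGraph m K).Connected := by
  rw [← dualGraph_eq]
  exact hK.2.2.2

theorem countable_cells {m : ℕ} (hm : 2 ≤ m) {K : PreAbstractSimplicialComplex V}
    (hK : IsPseudomanifold m K) :
    {σ | σ ∈ K.faces ∧ σ.card = m + 1}.Countable := by
  have hG := connected' hK
  obtain ⟨o⟩ := hG.nonempty
  have huniv : (Set.univ : Set {σ : Finset V // σ ∈ K.faces ∧ σ.card = m + 1}) =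
      ⋃ i, JobEscape.B (TH641.J10.dualGraph m K) o i := by
    symm
    rw [Set.eq_univ_iff_forall]
    intro x
    obtain ⟨i, hi⟩ := JobEscape.exists_mem (o := o) hG x
    exact Set.mem_iUnion.mpr ⟨i, hi⟩
  have hc : (Set.univ : Set {σ : Finset V // σ ∈ K.faces ∧ σ.card = m + 1}).Countable := by
    rw [huniv]
    exact Set.countable_iUnion fun i =>
      (JobEscape.B_finite (neighbor_finite hm hK) i).countable
  have := Set.countable_univ_iff.mp hc
  exact Set.countable_coe_iff.mp this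

/-- the flow data of an open pseudomanifold -/
theorem exists_flowData {m : ℕ} (hm : 2 ≤ m) {K : PreAbstractSimplicialComplex V}
    (hK : IsPseudomanifold m K) [NoncompactSpace (realization K)] :
    ∃ D : FlowData V m, D.C = {σ | σ ∈ K.faces ∧ σ.card = m + 1} := by
  have hG := connected' hK
  have hinf : Infinite {σ : Finset V // σ ∈ K.faces ∧ σ.card = m + 1} :=
    (infinite_cells hK).to_subtype
  obtain ⟨φ, ρ, hφ⟩ := JobEscape.exists_escape (TH641.J10.dualGraph m K) hG
    (neighbor_finite hm hK) hinf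
  have hV : Nonempty V := by
    obtain ⟨σ⟩ := hG.nonempty
    obtain ⟨v, _⟩ := Finset.card_pos.mp (by rw [σ.2.2]; omega : 0 < σ.1.card)
    exact ⟨v⟩
  let C : Set (Finset V) := {σ | σ ∈ K.faces ∧ σ.card = m + 1}
  let par : Finset V → Finset V := fun σ => if h : σ ∈ C then (φ ⟨σ, h⟩).1 else ∅
  let rank : Finset V → ℕ := fun σ => if h : σ ∈ C then ρ ⟨σ, h⟩ else 0
  let apex : Finset V → V := fun σ => Classical.epsilon (fun v => v ∈ σ ∧ v ∉ par σ)
  have hpar : ∀ σ (h : σ ∈ C), par σ = (φ ⟨σ, h⟩).1 := fun σ h => dif_pos h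
  have hrank : ∀ σ (h : σ ∈ C), rank σ = ρ ⟨σ, h⟩ := fun σ h => dif_pos h
  have hparC : ∀ σ ∈ C, par σ ∈ C := by
    intro σ h
    rw [hpar σ h]
    exact (φ ⟨σ, h⟩).2
  have hinter : ∀ σ ∈ C, (σ ∩ par σ).card = m := by
    intro σ h
    rw [hpar σ h]
    exact (hφ ⟨σ, h⟩).1.2
  have hapex : ∀ σ ∈ C, apex σ ∈ σ ∧ apex σ ∉ par σ := by
    intro σ h
    obtain ⟨v, hv, hvp, _⟩ := card_two_aux h.2 (hinter σ h)
    exact Classical.epsilon_spec (p := fun v => v ∈ σ ∧ v ∉ par σ) ⟨v, hv, hvp⟩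
  have herase : ∀ σ ∈ C, ∀ v ∈ σ, σ.erase v ∈ K.faces ∧ (σ.erase v).card = m := by
    intro σ h v hv
    have hc : (σ.erase v).card = m := by
      rw [Finset.card_erase_of_mem hv, h.2]; rfl
    refine ⟨TH641.J10.face_of_subset h.1 (Finset.erase_subset _ _)
      (Finset.card_pos.mp (by rw [hc]; omega)), hc⟩
  refine ⟨{ C := C, card := fun σ h => h.2, apex := apex, par := par, rank := rank,
            apex_mem := fun σ h => (hapex σ h).1, par_mem := hparC,
            par_sub := ?_, rank_lt := ?_, two_ex := ?_, two_uniq := ?_, locfin := ?_,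
            mpos := hm }, rfl⟩
  · intro σ h v hv hne
    by_contra hcon
    obtain ⟨w, hw, hwp, huniq⟩ := card_two_aux h.2 (hinter σ h)
    exact hne ((huniq v hv hcon).trans (huniq _ (hapex σ h).1 (hapex σ h).2).symm)
  · intro σ h
    rw [hrank σ h, hrank _ (hparC σ h)]
    have h1 := (hφ ⟨σ, h⟩).2
    have h2 : (⟨par σ, hparC σ h⟩ : {σ : Finset V // σ ∈ K.faces ∧ σ.card = m + 1}) =
        φ ⟨σ, h⟩ := Subtype.ext (hpar σ h)
    rw [h2]
    exact h1
  · intro σ h v hv
    obtain ⟨he1, he2⟩ := herase σ h v hv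
    obtain ⟨a, b, hab, ha, hb, hfa, hfb, hall⟩ := exists_two hK he1 he2
    have hvab := hall v (Finset.notMem_erase v σ) (by rw [Finset.insert_erase hv]; exact h.1)
    have key : ∀ c, c ≠ v → c ∉ σ.erase v → insert c (σ.erase v) ∈ K.faces →
        ∃ τ ∈ C, τ ≠ σ ∧ ∀ w ∈ σ, w ≠ v → w ∈ τ := by
      intro c hcv hc hf
      refine ⟨insert c (σ.erase v), ⟨hf, by rw [Finset.card_insert_of_notMem hc, he2]⟩, ?_, ?_⟩
      · intro heq
        have : v ∈ insert c (σ.erase v) := by rw [heq]; exact hv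
        rcases Finset.mem_insert.mp this with h1 | h1
        · exact hcv h1.symm
        · exact Finset.notMem_erase v σ h1
      · intro w hw hwv
        exact Finset.mem_insert_of_mem (Finset.mem_erase.mpr ⟨hwv, hw⟩)
    rcases hvab with rfl | rfl
    · exact key b (fun e => hab e.symm) hb hfb
    · exact key a hab ha hfa
  · intro σ h v hv τ hτ τ' hτ' hne hne' hsub hsub'
    obtain ⟨he1, he2⟩ := herase σ h v hv
    obtain ⟨a, b, hab, ha, hb, hfa, hfb, hall⟩ := exists_two hK he1 he2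
    have hvab := hall v (Finset.notMem_erase v σ) (by rw [Finset.insert_erase hv]; exact h.1)
    obtain ⟨c, hcv, hc, rfl⟩ := cell_insert h.2 hτ.2 hv hne hsub
    obtain ⟨c', hcv', hc', rfl⟩ := cell_insert h.2 hτ'.2 hv hne' hsub'
    have h1 := hall c hc hτ.1
    have h2 := hall c' hc' hτ'.1
    have : c = c' := by
      rcases hvab with rfl | rfl
      · rcases h1 with h1 | h1
        · exact absurd h1 hcv
        · rcases h2 with h2 | h2
          · exact absurd h2 hcv'
          · exact h1.trans h2.symm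
      · rcases h1 with h1 | h1
        · rcases h2 with h2 | h2
          · exact h1.trans h2.symm
          · exact absurd h2 hcv'
        · exact absurd h1 hcv
    rw [this]
  · intro v
    apply (hK.1 v).subset
    rintro σ ⟨h1, h2⟩
    exact ⟨h1.1, h2⟩

theorem space_eq {m : ℕ} {K : PreAbstractSimplicialComplex V} (hK : IsPseudomanifold m K)
    {D : FlowData V m} (hD : D.C = {σ | σ ∈ K.faces ∧ σ.card = m + 1}) :
    D.space = realization K := by
  rw [realization_eq hK]
  ext x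
  simp only [FlowData.space, hD, Set.mem_iUnion, Set.mem_ofPred_eq, exists_prop]

/-- The branched cover of an open orientable pseudomanifold. -/
theorem of_data {m : ℕ} (hm : 2 ≤ m) {K : PreAbstractSimplicialComplex V}
    (hK : IsPseudomanifold m K) (ho : IsOrientable m K)
    [NoncompactSpace (realization K)] :
    ∃ f : realization K → (Fin m → ℝ), IsPL K f ∧ (∀ y, DiscreteTopology (f ⁻¹' {y})) ∧
      Function.Surjective f ∧ IsCoveringMapOn f (Bset m)ᶜ ∧
      (∀ y, y ∉ Bset m → Cardinal.mk (f ⁻¹' {y}) = Cardinal.aleph0) ∧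
      ∀ y, ∃ C ∈ 𝓝 y, IsCompact C ∧ ∀ x ∈ f ⁻¹' C,
        IsCompact (connectedComponentIn (f ⁻¹' C) x) := by
  obtain ⟨D, hD⟩ := exists_flowData hm hK
  obtain ⟨o, hor⟩ := orientation_of hD ho
  have hsp := space_eq hK hD
  have hinfC : D.C.Infinite := by rw [hD]; exact infinite_cells hK
  have hcount : D.C.Countable := by rw [hD]; exact countable_cells hm hK
  have hne : D.space.Nonempty := by
    rw [hsp, realization_eq hK]
    obtain ⟨σ, hσ⟩ := (infinite_cells hK).nonempty
    obtain ⟨v, hv⟩ := Finset.card_pos.mp (by rw [hσ.2]; omega : 0 < σ.card)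
    refine ⟨fun w => if w = v then 1 else 0, Set.mem_biUnion (x := σ) hσ ⟨?_, ?_, ?_⟩⟩
    · intro w
      show (0 : ℝ) ≤ if w = v then 1 else 0
      split_ifs <;> norm_num
    · intro w hw
      have : w ≠ v := fun h => hw (h ▸ hv)
      simp [this]
    · simp [Finset.sum_ite_eq', hv]
  have key : ∀ (S : Set (V → ℝ)) (hS : D.space = S),
      ∃ f : S → (Fin m → ℝ), (∀ (x : V → ℝ) (h : x ∈ S), f ⟨x, h⟩ = D.F o ⟨x, hS ▸ h⟩) ∧
        Continuous f ∧
        (∀ y, DiscreteTopology (f ⁻¹' {y})) ∧ Function.Surjective f ∧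
        IsCoveringMapOn f (Bset m)ᶜ ∧
        (∀ y, y ∉ Bset m → Cardinal.mk (f ⁻¹' {y}) = Cardinal.aleph0) ∧
        (∀ y, ∃ C ∈ 𝓝 y, IsCompact C ∧ ∀ x ∈ f ⁻¹' C,
          IsCompact (connectedComponentIn (f ⁻¹' C) x)) := by
    rintro S rfl
    refine ⟨D.F o, fun x h => rfl, FlowData.continuous_F o, FlowData.discrete_fiber o,
      FlowData.surjective_F hor hne, FlowData.isCoveringMapOn hor, ?_,
      FlowData.exists_compact_nhds o⟩
    intro y hy
    obtain ⟨e⟩ := FlowData.fiber_equiv hor hy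
    have h1 := FlowData.infinite_Pos hor hinfC
    have h2 : Countable (FlowData.Pos D o) := FlowData.countable_Pos hcount
    rw [← Cardinal.mk_congr e]
    exact Cardinal.mk_eq_aleph0 _
  obtain ⟨f, hf, hcont, hdisc, hsurj, hcov, hdeg, hcomp⟩ := key _ hsp
  refine ⟨f, ⟨hcont, ?_⟩, hdisc, hsurj, hcov, hdeg, hcomp⟩
  intro s hs
  obtain ⟨σ, h1, h2, h3⟩ := hK.2.1 s hs
  have hσ : σ ∈ D.C := by rw [hD]; exact ⟨h1, h3⟩
  obtain ⟨n, P, hP, hcovP, hA⟩ := D.exists_PL o hσ
  refine ⟨n, P, hP, (simplex_mono h2).trans hcovP, ?_⟩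
  intro i
  obtain ⟨A, hA⟩ := hA i
  refine ⟨A, ?_⟩
  rintro ⟨x, hx⟩ hxs hxP
  rw [hf x hx]
  exact hA ⟨x, hsp ▸ hx⟩ (simplex_mono h2 hxs) hxP

end

end Pool.Agent.KS6_94.UB
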